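import Pool.Agent.Helper37_BSig.Stmts

/-!
# BSIG: CodeStmt, coding of sequences
-/

namespace Pool.Agent.BSig

open Filter

namespace H81

theorem code_bounded (x : ℕ → MM) (b : MM) (hx : ∀ i, x i ≤ b) :
    ∃ E : MM, ∀ (i : ℕ) (z : MM), Mem (pr (i : MM) z) E ↔ z = x i := by
  have hid : Bdd (fun n => n) := ⟨0, Eventually.of_forall fun n => by simp only [tow]; omega⟩
  let B : ℕ → ℕ := fun n => (n + rep b n) * (n + rep b n) + n + 1
  have hB : Bdd B := bdd_add (bdd_add (bdd_mul (bdd_add hid (bdd_rep b)) (bdd_add hid (bdd_rep b)))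
    hid) (bdd_const 1)
  let g : ℕ → ℕ := fun n => ncode (B n)
    (fun t => ∃ i < n, t = (i + rep (x i) n) * (i + rep (x i) n) + i)
  have hg : Bdd g := bdd_of_le (bdd_pow2 hB) (Eventually.of_forall fun n => (ncode_lt _ _).le)
  refine ⟨mk g hg, fun i z => ?_⟩
  obtain ⟨e, he, rfl⟩ := exists_mk z
  rw [natCast_mk, pr_mk, mem_mk]
  have hxi : ∀ᶠ n in (UU : Filter ℕ), rep (x i) n ≤ rep b n := by
    have h1 := hx i
    rw [← mk_rep (x i), ← mk_rep b, mk_le] at h1
    exact h1
  have h2 : mk e he = x i ↔ ∀ᶠ n in (UU : Filter ℕ), e n = rep (x i) n := by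
    rw [← mk_eq (hf := he) (hg := bdd_rep (x i)), mk_rep]
  rw [h2]
  constructor
  · intro h
    filter_upwards [h] with n hn
    rw [testBit_ncode] at hn
    obtain ⟨_, i', _, h4⟩ := hn
    obtain ⟨h5, h6⟩ := nat_pr_inj h4
    subst h5
    exact h6
  · intro h
    filter_upwards [h, hxi, eventually_ge (i + 1)] with n h3 h4 h5
    rw [testBit_ncode]
    refine ⟨?_, i, by omega, by rw [h3]⟩
    have h6 : i + e n ≤ n + rep b n := by omega
    have h7 : (i + e n) * (i + e n) ≤ (n + rep b n) * (n + rep b n) := Nat.mul_le_mul h6 h6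
    simp only [B]
    omega

end H81

theorem codeStmt_proof : CodeStmt := by
  refine ⟨?_, ?_, H81.code_bounded⟩
  · intro X
    have hid : Bdd (fun n => n) := ⟨0, Eventually.of_forall fun n => by simp only [tow]; omega⟩
    let g : ℕ → ℕ := fun n => ncode n (fun t => t ∈ X)
    have hg : Bdd g := bdd_of_le (bdd_pow2 hid) (Eventually.of_forall fun n => (ncode_lt _ _).le)
    refine ⟨mk g hg, fun m => ?_⟩
    rw [natCast_mk, mem_mk]
    constructor
    · intro h
      obtain ⟨n, hn⟩ := h.exists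
      rw [testBit_ncode] at hn
      exact hn.2
    · intro h
      filter_upwards [eventually_ge (m + 1)] with n hn
      rw [testBit_ncode]
      exact ⟨by omega, h⟩
  · intro d
    exact H81.code_bounded (fun i => (d i : MM)) (aa 0) (fun i => (infl_aa 0 (d i)).le)

end Pool.Agent.BSig
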